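import Pool.Agent.V5helper77.KP.Main

/-!
# Formal periods and cycles on systems of bilinear equations

The space `P̃^eff` of formal effective periods is defined as in the problem, by the symbols
`(X, Y, i, ω, σ)` and the relations of bilinearity, functoriality and boundaries (`Theory`, `Rel`, `Peff`); let
`t` be the class `2 π̃ i` of `(𝔾_m, {1}, 1, dz/z, S¹)`.

For every formal effective period `x` the product `t² x` is the class of ONE symbol `(V, ∅, i, ω, σ)`, where
`V` is given by bilinear equations `∑_{(i, j) ∈ E_l} x_i y_j = 0` with at most three terms (and all the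
coefficients `1`) and the inequality `x_(i₀) y_(j₀) ≠ 0`. So no sums of symbols, no relative cycles and no
algebraic numbers are needed, and Kontsevich's period conjecture is equivalent to the statement: if the
integral of a class `ω ∈ H^i_dR(V)` over a class `σ ∈ H_i(V(ℂ), ℚ)` is zero, for a variety `V` of this
explicit kind, then the formal period `(V, ∅, i, ω, σ)` is zero in `P̃`.

Idea of the proof. (1) `P̃^eff` is generated by the symbols of affine pairs `(Spec A, Spec B)`. Let
`Spec C` be an affine space which contains `Spec A` and let `R = A ×_B C`, so that `Spec R` is obtained by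
gluing `Spec A` and `Spec C` along `Spec B`. By excision and the contractibility of `Spec C` the given symbol
is equal to a symbol `(Spec R, ∅, i, ω', σ')`. (2) The degree of the symbols can be raised: `σ` is the
boundary of `σ × [0, 1]`, modulo the other end, so a symbol of `(Spec A, ∅)` in degree `i` is equal to one of
`(Spec A × 𝔸¹, Spec A × {0, 1})` in degree `i + 1`, and (1) applies again. (3) Two symbols of the same degree
are added in the disjoint union. (4) `Spec A` is an open and closed subscheme of a scheme over `ℤ`: replace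
the coefficients of the equations by variables `s` with the equations `q(s) = 0`, where `q` is an integral
polynomial with the simple zero `c`. (5) Every scheme `Spec A` over `ℤ`, multiplied with `𝔾_m × 𝔾_m`, is
given by three-term bilinear equations and one inequality; the product with `𝔾_m` is the product with `t`.
-/

set_option autoImplicit false

open Pool.Agent.V5helper77.KP

namespace Pool.Agent.Results.MP_1eadae_ag.BilinearCycles

/-- **Formal periods and cycles on systems of bilinear equations.** Let `K` be an algebraic extension of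
`ℚ` with a homomorphism to `ℂ` (for the problem: `K = ℚ̄`).

(1) For every formal effective period `x` the product of `x` with `(2 π̃ i)²` is the class of one symbol
`(V, ∅, i, ω, σ)`, where `V` is given by bilinear equations with at most three terms, with the coefficients
`1`, and an inequality `x_(i₀) y_(j₀) ≠ 0`.

(2) So every effective period is the integral of a class `ω` in `H^i_dR(V)` over a class `σ` in
`H_i(V(ℂ), ℚ)`, for a variety `V` of this kind, divided by `(2 π i)²`.

(3) Kontsevich's period conjecture (Q1) is equivalent to the statement: for all `V` of this kind and all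
`i`, `ω ∈ H^i_dR(V)`, `σ ∈ H_i(V(ℂ), ℚ)` with `∫_σ ω = 0` the class of the symbol `(V, ∅, i, ω, σ)` in `P̃` is
zero. -/
theorem result (K : Type) [Field K] [Algebra ℚ K] [Algebra.IsAlgebraic ℚ K] (D : Theory K)
    (hD : IsGeometric D) (ev : Peff D →ₗ[ℚ] ℂ) (hev : IsEv D ev) (m : Peff D → Peff D → Peff D)
    (t : Peff D) (hm : IsProduct D ev m t) :
    (∀ x : Peff D, ∃ (a b c : ℕ) (E : Fin c → Finset (Fin a × Fin b)) (i₀ : Fin a) (j₀ : Fin b)
      (i : ℤ) (ω : D.dR i (bilPair K E i₀ j₀)) (σ : D.sg i (bilPair K E i₀ j₀)),
        (∀ l, (E l).card ≤ 3) ∧ m t (m t x) = cls D ⟨i, bilPair K E i₀ j₀, ω, σ⟩) ∧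
    (∀ x : Peff D, ∃ (a b c : ℕ) (E : Fin c → Finset (Fin a × Fin b)) (i₀ : Fin a) (j₀ : Fin b)
      (i : ℤ) (ω : D.dR i (bilPair K E i₀ j₀)) (σ : D.sg i (bilPair K E i₀ j₀)),
        (∀ l, (E l).card ≤ 3) ∧ ev x = D.int ω σ / (2 * Real.pi * Complex.I) ^ 2) ∧
    (PeriodConjecture D ev m t ↔
      ∀ (a b c : ℕ) (E : Fin c → Finset (Fin a × Fin b)) (i₀ : Fin a) (j₀ : Fin b) (i : ℤ)
        (ω : D.dR i (bilPair K E i₀ j₀)) (σ : D.sg i (bilPair K E i₀ j₀)),
        (∀ l, (E l).card ≤ 3) → D.int ω σ = 0 →
          Vanishes D m t (cls D ⟨i, bilPair K E i₀ j₀, ω, σ⟩)) := by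
  refine ⟨one_symbol hD hm, ?_, conjecture_iff hD hm hev⟩
  intro x
  obtain ⟨a, b, c, E, i₀, j₀, i, ω, σ, hE, h⟩ := one_symbol hD hm x
  refine ⟨a, b, c, E, i₀, j₀, i, ω, σ, hE, ?_⟩
  obtain ⟨_, _, _, _, _, _, ht⟩ := hm.gm
  have h2 := congrArg ev h
  rw [hm.ev_mul, hm.ev_mul, hev, ht] at h2
  have h3 : (2 * Real.pi * Complex.I : ℂ) ≠ 0 := Complex.two_pi_I_ne_zero
  rw [eq_div_iff (pow_ne_zero 2 h3), ← h2]
  ring

end Pool.Agent.Results.MP_1eadae_ag.BilinearCycles
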