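import Pool.Agent.Results.MP_1eadae_ag.NestedFamilies
import Pool.Agent.R437.Met.Hs

/-!
# Periods of products of members of a family of products of elliptic curves near a given point

Let `α_N < ⋯ < α_0 < γ_0 < ⋯ < γ_N`, and for `j = 0, …, N` let `s_j` be a function which is analytic near `[α_j, γ_j]`, real and
increasing on `[α_j, γ_j]`, with `s_j(α_j) = 0`, `s_j(γ_j) = 1`. For `t` in `(α_0, γ_0)` put
`X_t = E_{s_0(t)} × ⋯ × E_{s_N(t)}`, where `E_λ : y² = x (x - 1) (x - λ)`; examples are in the starting file `NestedFamilies`,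
which shows that the number of the `n`-tuples `(t_1, …, t_n)` of points of height at most `T` of a number field, in a
compact subset, such that the `3 (N + 1) n` numbers `K(s_j(t_i))`, `E(s_j(t_i))`, `K(1 - s_j(t_i))` have an approximate
relation of bounded degree and height `T ^ A`, is `O(T ^ ε)` times the number of the `(n - 1)`-tuples. Nothing is said there
about the tuples near a given point.

**Theorem.** Let `n ≥ 1`, `m` and `τ > 0`, and let `ω_0, ω_1, …` be complex numbers, for instance `1`, or periods of a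
variety `Y`. For all real vectors `ξ` with coordinates in `(α_0, γ_0)` outside a set of Hausdorff dimension at most
`2 m (n - 1) / τ`, all number fields `F ⊂ ℂ` of degree at most `m` and all `g`, `d`, `A` there is `B` such that for all `C` and
all large `T` NO `n`-tuple `t` of real elements of `F` of height at most `T` with `|t_i - ξ_i| ≤ C T ^ (-τ)` has an approximate
relation: there is no polynomial of degree at most `d` in each variable, with coefficients `∑_(i < g) ω_i c_i`, the `c_i`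
integers of `F` with conjugates of absolute value at most `T ^ A`, which takes at the `3 (N + 1) n` numbers belonging
to `X_{t_1}, …, X_{t_n}` a value of absolute value at most `T ^ (-B)` times the absolute value of some nonzero coefficient.

For `n = 1` the dimension is zero, for all `τ > 0` (and all `m`). For `n ≥ 2` the dimension is smaller than `n` if
`τ > 2 m (n - 1) / n`, while almost all real vectors have, for all large `T`, such approximations over `ℚ` for every `τ < 2`.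

Proof. The tuples near a given point (helper437, `Pool.Agent.R437.Met.Hs`) and the count of `NestedFamilies`.
-/

set_option autoImplicit false

namespace Pool.Agent.Results.MP_1eadae_ag.PeriodsNearAPoint

open NumberField MeasureTheory
open NestedFamilies (Exceptional HeightLe periods)

/-- the tuple `t` has an approximate relation: for some finite set `S` it is exceptional in the sense of the starting file
`NestedFamilies`, for the numbers `ω_0, …, ω_(g-1)` -/
def Related {N n : ℕ} (g d : ℕ) (s : Fin (N + 1) → ℂ → ℂ) (F : IntermediateField ℚ ℂ) [NumberField F]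
    (ω : ℕ → ℂ) (A B T : ℝ) (t : Fin n → F) : Prop :=
  ∃ S : Finset F, t ∈ Exceptional n d s F (algebraMap F ℂ) (fun i : Fin g => ω i) S A B T

theorem primitive (K : IntermediateField ℚ ℂ)
    (h : @Module.Finite ℚ K _ _ (K.algebra').toModule) :
    ∃ a : K, IntermediateField.adjoin ℚ {(a : ℂ)} = K ∧ IsAlgebraic ℚ (a : ℂ) := by
  obtain ⟨a, ha⟩ := @Field.exists_primitive_element ℚ K _ _ K.algebra' h
    (by
      have := @Algebra.IsAlgebraic.of_finite ℚ K _ _ _ K.algebra' h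
      exact @Algebra.IsAlgebraic.isSeparable_of_perfectField ℚ K _ _ K.algebra' this _)
  refine ⟨a, ?_, ?_⟩
  · have h2 := congrArg IntermediateField.lift ha
    rw [IntermediateField.lift_adjoin_simple, IntermediateField.lift_top] at h2
    exact h2
  · have h3 : @IsAlgebraic ℚ K _ _ K.algebra' a := by
      have := @Algebra.IsAlgebraic.of_finite ℚ K _ _ _ K.algebra' h
      exact Algebra.IsAlgebraic.isAlgebraic a
    have := @IsAlgebraic.algebraMap ℚ K ℂ _ _ _ _ K.algebra' _ _ a h3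
    exact this

theorem finite_of (K : IntermediateField ℚ ℂ) (hK : NumberField K) :
    @Module.Finite ℚ K _ _ (K.algebra').toModule := by
  have h := NumberField.to_finiteDimensional (K := K)
  convert h

/-- the number fields contained in `ℂ` form a countable set -/
theorem countable_fields : {K : IntermediateField ℚ ℂ | NumberField K}.Countable := by
  have hA : Countable {x : ℂ | IsAlgebraic ℚ x} := (Algebraic.countable ℚ ℂ).to_subtype
  refine Set.Countable.mono ?_ (Set.countable_range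
    (fun a : {x : ℂ | IsAlgebraic ℚ x} => IntermediateField.adjoin ℚ {(a : ℂ)}))
  intro K hK
  obtain ⟨a, h1, h2⟩ := primitive K (finite_of K hK)
  exact ⟨⟨(a : ℂ), h2⟩, h1⟩

/-- a compact subset of an open interval is contained in a closed one -/
theorem exists_Icc {u v : ℝ} (huv : u < v) {K : Set ℝ} (hK : IsCompact K) (h : K ⊆ Set.Ioo u v) :
    ∃ a b : ℝ, u < a ∧ b < v ∧ K ⊆ Set.Icc a b := by
  rcases K.eq_empty_or_nonempty with h0 | h0
  · exact ⟨(u + v) / 2, (u + v) / 2, by linarith, by linarith, by rw [h0]; exact Set.empty_subset _⟩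
  · exact ⟨sInf K, sSup K, (h (hK.sInf_mem h0)).1, (h (hK.sSup_mem h0)).2, fun x hx =>
      ⟨csInf_le hK.bddBelow hx, le_csSup hK.bddAbove hx⟩⟩

/-- the statement for one number field, over `ℂ` -/
theorem one_field (N : ℕ) (s : Fin (N + 1) → ℂ → ℂ) (α γ : Fin (N + 1) → ℝ) (hα : StrictAnti α) (hγ : StrictMono γ)
    (h0 : α 0 < γ 0)
    (hs : ∀ j, ∀ x ∈ Set.Icc (α j) (γ j),
      AnalyticAt ℂ (s j) (x : ℂ) ∧ (s j x).im = 0 ∧ 0 < (deriv (s j) (x : ℂ)).re)
    (hs0 : ∀ j, s j (α j) = 0) (hs1 : ∀ j, s j (γ j) = 1) (n : ℕ) (hn : 1 ≤ n) (τ : ℝ) (hτ : 0 < τ) (ω : ℕ → ℂ)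
    (F : IntermediateField ℚ ℂ) [NumberField F] :
    ∃ E : Set (Fin n → ℂ), dimH E ≤ ENNReal.ofReal (2 * (Module.finrank ℚ F : ℝ) * ((n : ℝ) - 1) / τ) ∧
      ∀ ξ : Fin n → ℂ, (∀ j, ξ j ∈ {z : ℂ | α 0 < z.re ∧ z.re < γ 0}) → ξ ∉ E → ∀ (q : ℕ × ℕ) (A : ℝ), ∃ B : ℝ,
        ∀ C : ℝ, ∃ T₁ : ℝ, ∀ T : ℝ, T₁ ≤ T → ∀ t : Fin n → F,
          (∀ j, Pool.Agent.R437.Met.Hs.IsPt F T (t j) ∧ ‖ξ j - algebraMap F ℂ (t j)‖ ≤ C * T ^ (-τ)) →
          ¬ ((∀ j, (t j : ℂ).im = 0) ∧ Related q.1 q.2 s F ω A B T t) := by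
  classical
  refine Pool.Agent.R437.Met.Hs.tuple F (algebraMap F ℂ) n hn (fun _ => {z : ℂ | α 0 < z.re ∧ z.re < γ 0})
    (fun _ => (isOpen_lt continuous_const Complex.continuous_re).inter
      (isOpen_lt Complex.continuous_re continuous_const))
    (fun (q : ℕ × ℕ) A B T t => (∀ j, (t j : ℂ).im = 0) ∧ Related q.1 q.2 s F ω A B T t) ?_ ?_ ?_ ?_ τ hτ
  · rintro q A A' B T t hAA hT ⟨h1, S, h2, P, h3, h4, h5⟩
    refine ⟨h1, S, h2, P, h3, fun k => ?_, h5⟩
    obtain ⟨c, hc, hc'⟩ := h4 k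
    exact ⟨c, fun i φ => (hc i φ).trans (Real.rpow_le_rpow_of_exponent_le hT hAA), hc'⟩
  · rintro q A B B' T t hBB hT ⟨h1, S, h2, P, h3, h4, k, h5, h6⟩
    refine ⟨h1, S, h2, P, h3, h4, k, h5, h6.trans (mul_le_mul_of_nonneg_right ?_ (norm_nonneg _))⟩
    exact Real.rpow_le_rpow_of_exponent_le hT (by linarith)
  · rintro q A B T T' t hA hB hBT hT1 hTT hTT2 ⟨h1, S, h2, P, h3, h4, k, h5, h6⟩
    have hT0 : 0 < T := by linarith
    have hT0' : 0 < T' := by linarith
    refine ⟨h1, S, h2, P, h3, fun k => ?_, k, h5, h6.trans (mul_le_mul_of_nonneg_right ?_ (norm_nonneg _))⟩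
    · obtain ⟨c, hc, hc'⟩ := h4 k
      exact ⟨c, fun i φ => (hc i φ).trans (Real.rpow_le_rpow hT0.le hTT hA), hc'⟩
    · calc T ^ (-(B + 1)) = T ^ (-B) * T ^ (-1 : ℝ) := by
            rw [← Real.rpow_add hT0]
            congr 1
            ring
        _ ≤ T ^ (-B) * 2 ^ (-B) := by
            refine mul_le_mul_of_nonneg_left ?_ (by positivity)
            rw [Real.rpow_neg_one, Real.rpow_neg two_pos.le]
            exact inv_anti₀ (by positivity) hBT
        _ = (2 * T) ^ (-B) := by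
            rw [Real.mul_rpow two_pos.le hT0.le, mul_comm]
        _ ≤ T' ^ (-B) := Real.rpow_le_rpow_of_nonpos hT0' hTT2 (by linarith)
  · rintro K hK hKS ⟨g, d⟩ A ε hε
    have hcomp : IsCompact (⋃ j : Fin n, Complex.re '' K j) :=
      isCompact_iUnion fun j => (hK j).image Complex.continuous_re
    have hsub : (⋃ j : Fin n, Complex.re '' K j) ⊆ Set.Ioo (α 0) (γ 0) := by
      refine Set.iUnion_subset fun j => ?_
      rintro _ ⟨z, hz, rfl⟩
      exact hKS j hz
    obtain ⟨a, b, ha, hb, hab⟩ := exists_Icc h0 hcomp hsub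
    obtain ⟨B, C, T₀, h⟩ := NestedFamilies.result N s α γ hα hγ h0 hs hs0 hs1 a b ha hb (Module.finrank ℚ F) n g d A ε hε
    refine ⟨B, C, T₀, {z : ℂ | z.im = 0 ∧ a ≤ z.re ∧ z.re ≤ b}, fun T hT => ?_⟩
    have hfinS : {x : F | algebraMap F ℂ x ∈ {z : ℂ | z.im = 0 ∧ a ≤ z.re ∧ z.re ≤ b} ∧
        Pool.Agent.R437.Met.Hs.IsPt F T x}.Finite :=
      (Pool.Agent.R437.Met.Hs.pt_finite F T).subset fun x hx => hx.2
    obtain ⟨S, hS⟩ : ∃ S : Finset F, S = hfinS.toFinset := ⟨_, rfl⟩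
    have hmem : ∀ x, x ∈ S ↔ algebraMap F ℂ x ∈ {z : ℂ | z.im = 0 ∧ a ≤ z.re ∧ z.re ≤ b} ∧
        Pool.Agent.R437.Met.Hs.IsPt F T x := by
      intro x
      rw [hS, Set.Finite.mem_toFinset]
      rfl
    have h1 := h F le_rfl (algebraMap F ℂ) (fun i : Fin g => ω i) T hT S
      (fun x hx => ⟨((hmem x).1 hx).1.1, ((hmem x).1 hx).1.2.1, ((hmem x).1 hx).1.2.2, ((hmem x).1 hx).2⟩)
    have hsub2 : {t : Fin n → F | (∀ j, algebraMap F ℂ (t j) ∈ K j ∧ Pool.Agent.R437.Met.Hs.IsPt F T (t j)) ∧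
        (∀ j, (t j : ℂ).im = 0) ∧ Related g d s F ω A B T t} ⊆
        Exceptional n d s F (algebraMap F ℂ) (fun i : Fin g => ω i) S A B T := by
      rintro t ⟨h2, h3, S', h4, P, h5⟩
      refine ⟨fun j => (hmem _).2 ⟨⟨h3 j, ?_⟩, (h2 j).2⟩, P, h5⟩
      exact hab (Set.mem_iUnion.2 ⟨j, _, (h2 j).1, rfl⟩)
    have hfinE : (Exceptional n d s F (algebraMap F ℂ) (fun i : Fin g => ω i) S A B T).Finite := by
      refine (Finset.finite_toSet (Fintype.piFinset fun _ : Fin n => S)).subset ?_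
      intro t ht
      rw [Finset.mem_coe, Fintype.mem_piFinset]
      exact ht.1
    refine ⟨hfinE.subset hsub2, ?_⟩
    have h2 : (({t : Fin n → F | (∀ j, algebraMap F ℂ (t j) ∈ K j ∧ Pool.Agent.R437.Met.Hs.IsPt F T (t j)) ∧
        (∀ j, (t j : ℂ).im = 0) ∧ Related g d s F ω A B T t}.ncard : ℕ) : ℝ) ≤
        ((Exceptional n d s F (algebraMap F ℂ) (fun i : Fin g => ω i) S A B T).ncard : ℝ) := by
      exact_mod_cast Set.ncard_le_ncard hsub2 hfinE
    refine h2.trans (h1.trans (le_of_eq ?_))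
    rw [Set.ncard_eq_toFinset_card _ hfinS, ← hS]

/-- **Theorem.** -/
theorem result (N : ℕ) (s : Fin (N + 1) → ℂ → ℂ) (α γ : Fin (N + 1) → ℝ) (hα : StrictAnti α) (hγ : StrictMono γ)
    (h0 : α 0 < γ 0)
    (hs : ∀ j, ∀ x ∈ Set.Icc (α j) (γ j),
      AnalyticAt ℂ (s j) (x : ℂ) ∧ (s j x).im = 0 ∧ 0 < (deriv (s j) (x : ℂ)).re)
    (hs0 : ∀ j, s j (α j) = 0) (hs1 : ∀ j, s j (γ j) = 1) (n : ℕ) (hn : 1 ≤ n) (m : ℕ) (τ : ℝ) (hτ : 0 < τ)
    (ω : ℕ → ℂ) :
    ∃ E : Set (Fin n → ℝ), dimH E ≤ ENNReal.ofReal (2 * m * ((n : ℝ) - 1) / τ) ∧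
      ∀ ξ : Fin n → ℝ, (∀ j, α 0 < ξ j ∧ ξ j < γ 0) → ξ ∉ E →
        ∀ (F : IntermediateField ℚ ℂ) [NumberField F], Module.finrank ℚ F ≤ m → ∀ (g d : ℕ) (A : ℝ), ∃ B : ℝ,
          ∀ C : ℝ, ∃ T₁ : ℝ, ∀ T : ℝ, T₁ ≤ T → ∀ t : Fin n → F,
            (∀ j, HeightLe F T (t j) ∧ (t j : ℂ).im = 0 ∧ |(t j : ℂ).re - ξ j| ≤ C * T ^ (-τ)) →
            ¬ Related g d s F ω A B T t := by
  classical
  have hctb : Countable {F : IntermediateField ℚ ℂ | NumberField F} := countable_fields.to_subtype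
  have hn1 : (1 : ℝ) ≤ n := by exact_mod_cast hn
  have key : ∀ F : {F : IntermediateField ℚ ℂ | NumberField F}, ∃ E : Set (Fin n → ℝ),
      dimH E ≤ ENNReal.ofReal (2 * m * ((n : ℝ) - 1) / τ) ∧
      (@Module.finrank ℚ F.1 _ _ _ ≤ m → ∀ ξ : Fin n → ℝ, (∀ j, α 0 < ξ j ∧ ξ j < γ 0) → ξ ∉ E →
        ∀ (g d : ℕ) (A : ℝ), ∃ B : ℝ, ∀ C : ℝ, ∃ T₁ : ℝ, ∀ T : ℝ, T₁ ≤ T → ∀ t : Fin n → F.1,
          (∀ j, @HeightLe F.1 _ F.2 T (t j) ∧ (t j : ℂ).im = 0 ∧ |(t j : ℂ).re - ξ j| ≤ C * T ^ (-τ)) →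
          ¬ @Related N n g d s F.1 F.2 ω A B T t) := by
    rintro ⟨F, hF⟩
    have hF' : NumberField F := hF
    by_cases hm : Module.finrank ℚ F ≤ m
    · obtain ⟨E, hE, hE'⟩ := one_field N s α γ hα hγ h0 hs hs0 hs1 n hn τ hτ ω F
      have hiso : AntilipschitzWith 1 (fun ξ : Fin n → ℝ => fun j => (ξ j : ℂ)) := by
        refine AntilipschitzWith.of_le_mul_dist fun x y => ?_
        rw [NNReal.coe_one, one_mul]
        refine (dist_pi_le_iff dist_nonneg).2 fun j => ?_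
        have h1 : dist (x j) (y j) = dist ((x j : ℂ)) ((y j : ℂ)) := by
          rw [Complex.dist_eq, ← Complex.ofReal_sub, Complex.norm_real, Real.dist_eq, Real.norm_eq_abs]
        rw [h1]
        exact dist_le_pi_dist (fun j => (x j : ℂ)) (fun j => (y j : ℂ)) j
      refine ⟨(fun ξ : Fin n → ℝ => fun j => (ξ j : ℂ)) ⁻¹' E, ?_, fun _ ξ hξ hξE g d A => ?_⟩
      · refine (hiso.dimH_preimage_le E).trans (hE.trans (ENNReal.ofReal_le_ofReal ?_))
        refine div_le_div_of_nonneg_right ?_ hτ.le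
        refine mul_le_mul_of_nonneg_right ?_ (by linarith)
        have : (Module.finrank ℚ F : ℝ) ≤ m := by exact_mod_cast hm
        linarith
      · obtain ⟨B, hB⟩ := hE' (fun j => (ξ j : ℂ)) (fun j => by
          simpa using hξ j) hξE (g, d) A
        refine ⟨B, fun C => ?_⟩
        obtain ⟨T₁, hT₁⟩ := hB C
        refine ⟨T₁, fun T hT t ht hrel => hT₁ T hT t (fun j => ⟨(ht j).1, ?_⟩) ⟨fun j => (ht j).2.1, hrel⟩⟩
        have h1 : algebraMap F ℂ (t j) = (((t j : ℂ).re : ℝ) : ℂ) := by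
          refine Complex.ext ?_ ?_
          · rw [Complex.ofReal_re]
            rfl
          · rw [Complex.ofReal_im]
            exact (ht j).2.1
        rw [h1, ← Complex.ofReal_sub, Complex.norm_real, Real.norm_eq_abs, abs_sub_comm]
        exact (ht j).2.2
    · exact ⟨∅, by rw [dimH_empty]; exact bot_le, fun h => absurd h hm⟩
  choose E hE1 hE2 using key
  refine ⟨⋃ F, E F, ?_, fun ξ hξ hξE F hF hm g d A => ?_⟩
  · rw [dimH_iUnion]
    exact iSup_le hE1
  · exact hE2 ⟨F, hF⟩ hm ξ hξ (fun h => hξE (Set.mem_iUnion.2 ⟨_, h⟩)) g d A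

end Pool.Agent.Results.MP_1eadae_ag.PeriodsNearAPoint
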