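import Pool.Agent.V5helper10.DRB.All

/-!
# de Rham-Betti classes on powers of K3 surfaces are Hodge classes

Let `S` be a K3 surface over the field of algebraic numbers and let `T` be the transcendental part of
`H^2(S)(1)`, of rank `r`.  The structure `K3Type r` of `Pool.Agent.W544.K3.Defs` records

* the intersection form `B` of `T` (a rational symmetric matrix), the class `ω` of the holomorphic
  two-form with `B(ω, ω) = 0`, `B(ω, conj ω) > 0`, and `B < 0` on the real vectors orthogonal to `ω`;
* the period matrix `D`: its columns are a basis of the algebraic de Rham cohomology of `T`, expressed
  in a rational basis of the Betti cohomology; the values of `B` on the columns are algebraic.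

By Kuenneth and Poincare duality a class on the power `S^m` is a rational `m`-linear form `t` on the
total cohomology `ℚ^s ⊕ T` (`s` algebraic classes, whose periods are algebraic).  It is a
de Rham-Betti class (`IsDRB'`) if its values on all de Rham vectors are algebraic, and a Hodge class
(`IsHodge'`) if it vanishes on all tuples of vectors of Hodge types `p_j` with `∑ p_j ≠ 0`.  The
injectivity of the evaluation map on formal periods implies that all de Rham-Betti classes are
algebraic classes, in particular Hodge classes.

`X.lie` is the Lie algebra of the de Rham-Betti group of `T`: all rational matrices killing all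
de Rham-Betti classes on all tensor powers of `T`.  The hypotheses are

* `Reductive`: this Lie algebra acts semisimply on `T ⊗ ℂ`,
* `EndHodge`: its commutant is spanned by the Hodge endomorphisms of `T`,
* `Deligne`: Hodge endomorphisms are de Rham-Betti classes

(these three are theorems: Wuestholz' analytic subgroup theorem and the Kuga-Satake construction,
Andre, Deligne, Kreutz-Shen-Vial), and

* `RealMult`: the Hodge endomorphisms are self-adjoint, i.e. the field `E` of Hodge endomorphisms is
  totally real;
* `finrank ℝ X.U ≠ 5`: `X.U` is the subspace of `T ⊗ ℝ` on which `E` acts as on `ω`; its dimension is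
  the rank of `T` over `E`.

**Theorem.** (1) Every de Rham-Betti class on every power of `S` is a Hodge class.
(2) If the only Hodge endomorphisms are the rational scalars and `r ≠ 5` then every de Rham-Betti class
on `S^m` whose Kuenneth components involve less than `r` factors `T` is algebraic: it is a rational
combination of products of algebraic classes on factors of `S^m` and of the transcendental parts of
the diagonals of pairs of factors.

Proof. The real Lie algebra `h` of operators killing all de Rham-Betti classes preserves `U`, acts
irreducibly on `U ⊗ ℂ` and lies in `so(U)`, which has signature `(2, *)`.  It contains the logarithms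
of the absolute values of the semisimple parts of the elements of the de Rham-Betti group, and the
real parts of its own elements.  The group is not compact on `U` (an irreducible compact group
preserves only definite forms), so `h` contains a nonzero diagonalisable operator which vanishes on
the orthogonal complement of `U`.  A study of the weights shows that an irreducible Lie subalgebra of
`so(2, n - 2)` with these properties is everything unless `n = 5`.  So `h` contains the operator
which defines the Hodge decomposition.
-/

open Module Finset

namespace Pool.Agent.Results.MP_1eadae_ag.PowersOfK3Surfaces

open Pool.Agent.W544.K3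

/-- **de Rham-Betti classes on powers of K3 surfaces.** -/
theorem result {r : ℕ} (X : K3Type r) (hR : X.Reductive) (hE : X.EndHodge) :
    (X.Deligne → X.RealMult → finrank ℝ X.U ≠ 5 →
      ∀ (s m : ℕ) (t : (Fin m → Fin s ⊕ Fin r) → ℚ), X.IsDRB' t → X.IsHodge' t) ∧
    ((∀ P, X.HodgeEnd P → ∃ c : ℚ, P = c • 1) → r ≠ 5 →
      ∀ (s m : ℕ) (t : (Fin m → Fin s ⊕ Fin r) → ℚ), X.IsDRB' t →
        (∀ I, t I ≠ 0 → (univ.filter fun j => (I j).isRight = true).card < r) →
        X.IsHodge' t ∧ t ∈ X.algClasses s m) :=
  ⟨fun hD hM h5 s m t ht => V5helper10.DRB.powers_hodge X hR hE hD hM h5 s m t ht,
    fun hQ h5 s m t ht hd => V5helper10.DRB.powers_both X hR hE hQ h5 s m t ht hd⟩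

end Pool.Agent.Results.MP_1eadae_ag.PowersOfK3Surfaces
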