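import Pool.Agent.V5helper10.DRB.All2
import Pool.Agent.V5helper41.DRB.RIGID

/-!
# de Rham-Betti classes on products of K3 surfaces are Hodge classes

Let `S_1, ..., S_N` be K3 surfaces over the field of algebraic numbers and let `T_i` be the
transcendental part of `H^2(S_i)(1)`, of rank `rk i`.  The structure `Multi n N` of
`Pool.Agent.W544.K3.Defs2` records, on the direct sum `T = ⊕ T_i` (of rank `n`; the basis vector `a`
belongs to `T_(c a)`; everything is block diagonal),

* the intersection forms (a rational symmetric matrix `B`), the classes `ω i` of the holomorphic
  two-forms with `B(ω i, ω i) = 0`, `B(ω i, conj (ω i)) > 0`, and `B < 0` on the real vectors of `T_i`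
  orthogonal to `ω i`;
* the period matrix `D`: its columns are a basis of the algebraic de Rham cohomology of `T`, expressed
  in a rational basis of the Betti cohomology; the values of `B` on the columns are algebraic.

By Kuenneth and Poincare duality the classes on all products `S_(i_1) × ... × S_(i_m)` (repetitions
allowed) are the rational `m`-linear forms `t` on `ℚ^s ⊕ T` (`s` algebraic classes, whose periods
are algebraic).  Such a `t` is a de Rham-Betti class (`IsDRB'`) if its values on all de Rham vectors are
algebraic, and a Hodge class (`IsHodge'`) if it vanishes on all tuples of vectors of Hodge types `p_j`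
with `∑ p_j ≠ 0`.  The injectivity of the evaluation map on formal periods implies that all
de Rham-Betti classes are algebraic classes, in particular Hodge classes.

`X.lie` is the Lie algebra of the de Rham-Betti group of `T`: all rational matrices killing all
de Rham-Betti classes on all tensor powers of `T`.  The hypotheses are

* `Reductive`: this Lie algebra acts semisimply on `T ⊗ ℂ`,
* `EndHodge`: its commutant is spanned by the Hodge endomorphisms of `T`,
* `Deligne`: Hodge endomorphisms are de Rham-Betti classes

(these three are theorems: Wuestholz' analytic subgroup theorem and the Kuga-Satake construction,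
Andre, Deligne, Kreutz-Shen-Vial), and

* `RealMult`: the Hodge endomorphisms are self-adjoint and there are no nonzero Hodge morphisms
  `T_i → T_j` for `i ≠ j`; so the fields `E_i` of Hodge endomorphisms of the `T_i` are totally real;
* the dimension of `X.U i`, the subspace of `T_i ⊗ ℝ` on which `E_i` acts as on `ω i`, i.e. the rank of
  `T_i` over `E_i`, is at least `3` and different from `4` and `5`.

**Theorem.** (1) Every de Rham-Betti class on every product of the surfaces `S_1, ..., S_N` and their
powers is a Hodge class.
(2) If the only Hodge endomorphisms of `T` are the rational scalars on each `T_i`, and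
`rk i ≥ 3`, `rk i ≠ 4, 5` for all `i`, then every de Rham-Betti class whose Kuenneth components involve,
for each `i`, less than `rk i` factors `T_i` is algebraic: it is a rational combination of products of
algebraic classes on factors and of the transcendental parts of the diagonals of `S_i × S_i` on pairs
of factors.

Proof. As for the powers of one surface (`PowersOfK3Surfaces`), the projection to `so(U_i)` of the real
Lie algebra `h` of operators killing all de Rham-Betti classes is onto; more precisely the ideal `c` of
those elements of `h` which vanish on the orthogonal complement of `⊕ U_i` projects onto each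
`so(U_i)`, and it contains the real parts of its elements.  By Goursat's lemma, the elements of `c`
are arbitrary tuples, unless for some `i ≠ j` an isomorphism `so(U_i) → so(U_j)` which preserves
diagonalisable operators is the graph of a part of `c`.  Such an isomorphism comes from an isometry
`U_i → U_j` which commutes with `h` (the signatures are `(2, *)` and the dimensions are not `4`), which is
impossible since `U_i ⊗ ℂ` and `U_j ⊗ ℂ` are not isomorphic `h`-modules.
-/

open Module Finset

namespace Pool.Agent.Results.MP_1eadae_ag.ProductsOfK3Surfaces

open Pool.Agent.W544.K3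

/-- **de Rham-Betti classes on products of K3 surfaces.** -/
theorem result {n N : ℕ} (X : Multi n N) (hR : X.Reductive) (hE : X.EndHodge) :
    (X.Deligne → X.RealMult →
      (∀ i, 3 ≤ finrank ℝ (X.U i) ∧ finrank ℝ (X.U i) ≠ 4 ∧ finrank ℝ (X.U i) ≠ 5) →
      ∀ (s m : ℕ) (t : (Fin m → Fin s ⊕ Fin n) → ℚ), X.IsDRB' t → X.IsHodge' t) ∧
    ((∀ P, X.HodgeEnd P → ∃ q : Fin N → ℚ, P = Matrix.diagonal fun a => q (X.c a)) →
      0 < N → (∀ i, 3 ≤ X.rk i ∧ X.rk i ≠ 4 ∧ X.rk i ≠ 5) →
      ∀ (s m : ℕ) (t : (Fin m → Fin s ⊕ Fin n) → ℚ), X.IsDRB' t →
        (∀ I, t I ≠ 0 → ∀ i, (univ.filter fun j => ∃ a, I j = Sum.inr a ∧ X.c a = i).card <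
          X.rk i) →
        X.IsHodge' t ∧ t ∈ X.algClasses s m) :=
  ⟨fun hD hM h3 s m t ht =>
      V5helper10.DRB.products_hodge (V5helper41.DRB.t_RIGID V5helper10.DRB.a_struct) X hR hE hD hM h3 s m t ht,
    fun hQ hN h3 s m t ht hd =>
      V5helper10.DRB.products_both (V5helper41.DRB.t_RIGID V5helper10.DRB.a_struct) X hR hE hQ hN h3 s m t ht hd⟩

end Pool.Agent.Results.MP_1eadae_ag.ProductsOfK3Surfaces
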